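import Mathlib
import Pool.Agent.Helper31.OMinDefs
import Pool.Agent.Helper31.OQVCut
import Pool.Agent.Helper31.Monster

set_option autoImplicit false

/-!
# Cofinality of realisations over a small base in o-minimal theories: a counterexample

The theory is the complete theory of the ordered rational vector space `ℚ`.  In every
`κ`-saturated model (`κ` uncountable) take a positive `u`, the small elementary substructure
`M = ℚ u`, and the right edge of the cut of `√2 u` over `M`.
-/

namespace Pool.Agent.Results.MP_52937b_lc.NotCofinal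

open FirstOrder FirstOrder.Language Cardinal
open Pool.Agent.Helper31 Pool.Agent.Helper31.OMin Pool.Agent.Helper31.OQV

/-- In `U`, with the small elementary substructure `M` and the global type `p`: the set of
realisations of `p` in `dcl (M b)` is not cofinal in the set of realisations of `p` in
`dcl (U b)`, for every realisation `b` of `p` in every elementary extension; in fact a single
element of the latter lies above all elements of the former. -/
def FailsEverywhere {L : FirstOrder.Language.{0, 0}} (lt : L.Relations 2) (U : Type)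
    [L.Structure U] (M : Set U) (p : Set (L.Formula (U ⊕ Unit))) : Prop :=
  ∀ (V : Type) [L.Structure V] (j : U ↪ₑ[L] V) (b : V), Realises p j b →
    ∃ c ∈ dcl (L := L) (Set.range j ∪ {b}), Realises p j c ∧
      ∀ e ∈ dcl (L := L) (j '' M ∪ {b}), Realises p j e → Structure.RelMap lt ![e, c]

lemma ominimal_TQ : OMinimal TQ ltSym := by
  intro N sN hN
  obtain ⟨i1, i2, i3, i4, i5, rfl⟩ := exists_alg N hN
  let _ := str N
  have hlt : ∀ a b : N, Structure.RelMap (L := LQ) ltSym ![a, b] ↔ a < b := fun a b => Iff.rfl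
  refine ⟨?_, ?_, ?_, ?_⟩
  · exact inferInstanceAs (IsStrictTotalOrder N (· < ·))
  · intro a b hab
    obtain ⟨c, h1, h2⟩ := exists_between ((hlt a b).1 hab)
    exact ⟨c, h1, h2⟩
  · intro a
    exact ⟨exists_gt a, exists_lt a⟩
  · intro D hD
    obtain ⟨R, -, hR⟩ := definable_line _ D hD
    exact finite_union R D hR

lemma exists_realisation {U : Type} [sU : LQ.Structure U] [Nonempty U]
    (p : Set (LQ.Formula (U ⊕ Unit))) (hp : IsGlobalType p) :
    ∃ (V : Type) (_ : LQ.Structure V) (j : U ↪ₑ[LQ] V) (b : V), Realises p j b := by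
  classical
  obtain ⟨V, sV, ⟨j⟩, hsat, -⟩ := Monster.exists_monster' (L := LQ) (Order.succ #U) U
  refine ⟨V, sV, j, ?_⟩
  let A : Set V := Set.range j
  let f : U → A := Set.rangeFactorization j
  obtain ⟨b, hb⟩ := hsat A (lt_of_le_of_lt mk_range_le (Order.lt_succ _))
    ((fun φ : LQ.Formula (U ⊕ Unit) => φ.relabel (Sum.map f id)) '' p) (by
      intro s hs
      have h1 : ∀ ψ : s, ∃ φ ∈ p, φ.relabel (Sum.map f id) = ψ.1 := fun ψ => hs ψ.2
      choose g hg1 hg2 using h1
      obtain ⟨x, hx⟩ := hp.2 (Finset.univ.image g) (by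
        intro φ hφ
        obtain ⟨ψ, -, rfl⟩ := Finset.mem_image.1 hφ
        exact hg1 ψ)
      refine ⟨j x, fun ψ hψ => ?_⟩
      have h2 := hx (g ⟨ψ, hψ⟩) (Finset.mem_image_of_mem _ (Finset.mem_univ _))
      have h3 := (j.map_formula (g ⟨ψ, hψ⟩) _).2 h2
      have h4 : (g ⟨ψ, hψ⟩).relabel (Sum.map f id) = ψ := hg2 ⟨ψ, hψ⟩
      rw [← h4, Formula.realize_relabel]
      convert h3 using 1
      funext i
      rcases i with i | i <;> rfl)
  refine ⟨b, fun φ hφ => ?_⟩
  have h2 := hb _ ⟨φ, hφ, rfl⟩
  rw [Formula.realize_relabel] at h2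
  convert h2 using 1
  funext i
  rcases i with i | i <;> rfl

/-- **Main theorem.** There is a complete o-minimal theory with `κ`-monster models for every
`κ`, such that for every uncountable `κ` every `κ`-monster model `U` contains a small elementary
substructure `M` and has a global `M`-invariant 1-type `p` with small cofinality on the right,
for which the realisations of `p` in `dcl (M b)` are not cofinal in those in `dcl (U b)`. -/
theorem result : ∃ (L : FirstOrder.Language.{0, 0}) (lt : L.Relations 2) (T : L.Theory),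
    T.IsComplete ∧ OMinimal T lt ∧
    (∀ κ : Cardinal.{0}, ∃ (U : Type) (_ : L.Structure U), U ⊨ T ∧ Monster L κ U) ∧
    ∀ κ : Cardinal.{0}, ℵ₀ < κ → ∀ (U : Type) [L.Structure U], U ⊨ T → Monster L κ U →
      ∃ M : L.ElementarySubstructure U, #M < κ ∧
        ∃ p : Set (L.Formula (U ⊕ Unit)),
          IsGlobalType p ∧ IsInvariant (M : Set U) p ∧ SmallOnRight lt κ p ∧
          (∃ (V : Type) (_ : L.Structure V) (j : U ↪ₑ[L] V) (b : V), Realises p j b) ∧
          FailsEverywhere lt U (M : Set U) p := by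
  refine ⟨LQ, ltSym, TQ, ?_, ominimal_TQ, ?_, ?_⟩
  · let _ := str ℚ
    exact completeTheory.isComplete LQ ℚ
  · intro κ
    let _ := str ℚ
    obtain ⟨U, sU, ⟨j⟩, hU⟩ := Monster.exists_monster' (L := LQ) κ ℚ
    refine ⟨U, sU, ?_, hU⟩
    have h1 : ℚ ⊨ TQ := model_completeTheory
    exact (j.elementarilyEquivalent.theory_model_iff (T := TQ)).1 h1
  · intro κ hκ U sU hUT hU
    obtain ⟨i1, i2, i3, i4, i5, rfl⟩ := exists_alg U hUT
    let _ := str U
    obtain ⟨x₀, hx₀⟩ := exists_ne (0 : U)
    obtain ⟨u, hu⟩ : ∃ u : U, 0 < u := ⟨|x₀|, abs_pos.2 hx₀⟩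
    obtain ⟨ε, hε⟩ := exists_infi hκ hU.1 hu
    have hS : ∃ x ∈ Submodule.span ℚ {u}, x ≠ 0 :=
      ⟨u, Submodule.subset_span rfl, hu.ne'⟩
    let M := subES (Submodule.span ℚ {u}) hS
    have hM : ∀ x : U, x ∈ M ↔ ∃ q : ℚ, x = q • u := by
      intro x
      rw [mem_subES, Submodule.mem_span_singleton]
      exact ⟨fun ⟨q, hq⟩ => ⟨q, hq.symm⟩, fun ⟨q, hq⟩ => ⟨q, hq.symm⟩⟩
    refine ⟨M, ?_, pt u, pt_isGlobalType hu,
      pt_invariant _ (fun q => (hM _).2 ⟨q, rfl⟩), pt_small hu hκ,
      exists_realisation (pt u) (pt_isGlobalType hu), ?_⟩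
    · refine lt_of_le_of_lt ?_ hκ
      have h1 : Function.Surjective (fun q : ℚ => (⟨q • u, (hM _).2 ⟨q, rfl⟩⟩ : M)) := by
        rintro ⟨x, hx⟩
        obtain ⟨q, rfl⟩ := (hM x).1 hx
        exact ⟨q, rfl⟩
      exact (mk_le_of_surjective h1).trans mk_le_aleph0
    · intro V sV j b hb
      have hVT : V ⊨ TQ := (j.elementarilyEquivalent.theory_model_iff (T := TQ)).1 hUT
      obtain ⟨k1, k2, k3, k4, k5, rfl⟩ := exists_alg V hVT
      let _ := str V
      refine ⟨b + j ε, add_mem_dcl (Or.inr rfl) (Or.inl ⟨ε, rfl⟩), realises_add hu hε hb, ?_⟩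
      intro e he he'
      have h1 : e = b := dcl_realises hu hb (M : Set U) (fun x hx => (hM x).1 hx) he he'
      have h2 : 0 < j ε := by
        rw [← j_zero j, j_lt]
        exact hε.1
      show e < b + j ε
      rw [h1]
      exact lt_add_of_pos_right b h2

end Pool.Agent.Results.MP_52937b_lc.NotCofinal
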